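import Mathlib

/-!
Definitions for the problem MP_124889_co (proper edge weightings from three reals).
Two-colourings are functions into `ZMod 2`.
-/

open MvPolynomial

namespace PoolPW

/-- restriction of a polynomial to the line `ξ + t η` -/
noncomputable def line {V : Type*} (p : MvPolynomial V ℝ) (ξ η : V → ℝ) : Polynomial ℝ :=
  aeval (fun v => Polynomial.C (ξ v) + Polynomial.C (η v) * Polynomial.X) p

open Classical in
/-- number of ordered pairs joined by an edge of `M` and separated by `T` -/
noncomputable def cutCount {V : Type*} [Fintype V] (M : SimpleGraph V) (T : V → ZMod 2) : ℕ :=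
  (Finset.univ.filter (fun e : V × V => M.Adj e.1 e.2 ∧ T e.1 ≠ T e.2)).card

/-- `T` is a maximum cut of `M` -/
def IsMaxCut {V : Type*} [Fintype V] (M : SimpleGraph V) (T : V → ZMod 2) : Prop :=
  ∀ T', cutCount M T' ≤ cutCount M T

/-- the cut edges of `T`, as a graph -/
def cutGraph {V : Type*} (M : SimpleGraph V) (T : V → ZMod 2) : SimpleGraph V where
  Adj u v := M.Adj u v ∧ T u ≠ T v
  symm := ⟨fun _ _ h => ⟨h.1.symm, h.2.symm⟩⟩
  loopless := ⟨fun _ h => M.loopless.irrefl _ h.1⟩

/-- the non-cut edges of `T`, as a graph -/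
def inGraph {V : Type*} (M : SimpleGraph V) (T : V → ZMod 2) : SimpleGraph V where
  Adj u v := M.Adj u v ∧ T u = T v
  symm := ⟨fun _ _ h => ⟨h.1.symm, h.2.symm⟩⟩
  loopless := ⟨fun _ h => M.loopless.irrefl _ h.1⟩

/-- the graph with the (unoriented) edges from a finite set of ordered pairs -/
def pairGraph {V : Type*} (Z : Finset (V × V)) : SimpleGraph V where
  Adj u v := u ≠ v ∧ ((u, v) ∈ Z ∨ (v, u) ∈ Z)
  symm := ⟨fun _ _ h => ⟨h.1.symm, h.2.symm⟩⟩
  loopless := ⟨fun _ h => h.1 rfl⟩

/-- the family `J`: `Z` together with the non-cut edges has the same components as `M` -/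
def Jfam {V : Type*} (M : SimpleGraph V) (T : V → ZMod 2) (Z : Finset (V × V)) : Prop :=
  ∀ u v, M.Reachable u v → (pairGraph Z ⊔ inGraph M T).Reachable u v

open Classical in
/-- the cut edges, oriented from the side `T = 0` to the side `T = 1` -/
noncomputable def cutPairs {V : Type*} [Fintype V] (M : SimpleGraph V) (T : V → ZMod 2) :
    Finset (V × V) :=
  Finset.univ.filter (fun e : V × V => M.Adj e.1 e.2 ∧ T e.1 = 0 ∧ T e.2 = 1)

open Classical in
/-- weighted degree plus offset -/
noncomputable def val {V : Type*} [Fintype V] (M : SimpleGraph V) (r : V → ℝ)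
    (w : V → V → ℝ) (v : V) : ℝ :=
  r v + ∑ u ∈ Finset.univ.filter (fun u => M.Adj v u), w v u

end PoolPW
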